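import Mathlib

/-!
# The classes of normed spaces with the angle `∠_ρ` are pairwise different

Positive side: `ℝ²` with the norm `N(v)² = max (v₁² + a v₂²) (a v₁² + v₂²)`.
Negative side: its dual.
-/

namespace Pool.Agent.Results.MP_843c3c_an.Distinct

open Filter Topology

section Defs

variable {X : Type*} [NormedAddCommGroup X] [NormedSpace ℝ X]

/-- `s = ‖x/‖x‖ + y/‖y‖‖` -/
noncomputable def sN (x y : X) : ℝ := ‖(‖x‖⁻¹ • x) + (‖y‖⁻¹ • y)‖

/-- `d = ‖x/‖x‖ - y/‖y‖‖` -/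
noncomputable def dN (x y : X) : ℝ := ‖(‖x‖⁻¹ • x) - (‖y‖⁻¹ • y)‖

/-- the product `⟨x | y⟩_ρ` -/
noncomputable def ip (ρ : ℝ) (x y : X) : ℝ :=
  ‖x‖ * ‖y‖ * ((sN x y ^ 2 - dN x y ^ 2) / 4) * ((sN x y ^ 2 + dN x y ^ 2) / 4) ^ ρ

variable (X) in
/-- the space has the angle `∠_ρ` -/
def HasAngle (ρ : ℝ) : Prop := ∀ x y : X, x ≠ 0 → y ≠ 0 → |ip ρ x y| ≤ ‖x‖ * ‖y‖

end Defs

/-- a real normed space -/
structure NSpace where
  /-- the underlying type -/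
  carrier : Type
  /-- the normed group structure -/
  grp : NormedAddCommGroup carrier
  /-- the normed space structure -/
  spc : NormedSpace ℝ carrier

/-- the class of all real normed spaces -/
def NORM : Set NSpace := Set.univ

/-- the class of all real normed spaces which have the angle `∠_ρ` -/
def NORMr (ρ : ℝ) : Set NSpace :=
  {Z | @HasAngle Z.carrier Z.grp Z.spc ρ}

section General

variable {X : Type*} [NormedAddCommGroup X] [NormedSpace ℝ X]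

lemma unit_norm {x : X} (hx : x ≠ 0) : ‖‖x‖⁻¹ • x‖ = 1 := by
  rw [norm_smul, norm_inv, norm_norm, inv_mul_cancel₀ (norm_ne_zero_iff.mpr hx)]

lemma sN_nonneg (x y : X) : 0 ≤ sN x y := norm_nonneg _

lemma dN_nonneg (x y : X) : 0 ≤ dN x y := norm_nonneg _

lemma sN_le {x y : X} (hx : x ≠ 0) (hy : y ≠ 0) : sN x y ≤ 2 := by
  unfold sN
  have := norm_add_le (‖x‖⁻¹ • x) (‖y‖⁻¹ • y)
  rw [unit_norm hx, unit_norm hy] at this
  linarith

lemma dN_le {x y : X} (hx : x ≠ 0) (hy : y ≠ 0) : dN x y ≤ 2 := by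
  unfold dN
  have := norm_sub_le (‖x‖⁻¹ • x) (‖y‖⁻¹ • y)
  rw [unit_norm hx, unit_norm hy] at this
  linarith

lemma q_pos {x y : X} (hx : x ≠ 0) : 0 < (sN x y ^ 2 + dN x y ^ 2) / 4 := by
  have h1 : (2 : ℝ) ≤ sN x y + dN x y := by
    unfold sN dN
    have h2 : (‖x‖⁻¹ • x + ‖y‖⁻¹ • y) + (‖x‖⁻¹ • x - ‖y‖⁻¹ • y) = (2 : ℝ) • (‖x‖⁻¹ • x) := by
      rw [two_smul]; abel
    have h3 := norm_add_le (‖x‖⁻¹ • x + ‖y‖⁻¹ • y) (‖x‖⁻¹ • x - ‖y‖⁻¹ • y)
    rw [h2, norm_smul, unit_norm hx] at h3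
    norm_num at h3
    linarith
  have := sN_nonneg x y
  have := dN_nonneg x y
  nlinarith [sq_nonneg (sN x y - dN x y)]

lemma abs_ip_le_iff {ρ : ℝ} {x y : X} (hx : x ≠ 0) (hy : y ≠ 0) :
    |ip ρ x y| ≤ ‖x‖ * ‖y‖ ↔
      |(sN x y ^ 2 - dN x y ^ 2) / 4| * ((sN x y ^ 2 + dN x y ^ 2) / 4) ^ ρ ≤ 1 := by
  have h1 : 0 < ‖x‖ * ‖y‖ := mul_pos (norm_pos_iff.mpr hx) (norm_pos_iff.mpr hy)
  have h2 : 0 < ((sN x y ^ 2 + dN x y ^ 2) / 4) ^ ρ := Real.rpow_pos_of_pos (q_pos hx) ρ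
  unfold ip
  rw [abs_mul, abs_mul, abs_of_pos h1, abs_of_pos h2, mul_assoc]
  constructor
  · intro h
    by_contra hc
    push Not at hc
    nlinarith
  · intro h
    nlinarith

lemma hasAngle_mono_pos {α β : ℝ} (hα : 0 ≤ α) (h : α ≤ β) (hX : HasAngle X β) :
    HasAngle X α := by
  intro x y hx hy
  have h1 := hX x y hx hy
  rw [abs_ip_le_iff hx hy] at h1 ⊢
  have hq := q_pos (y := y) hx
  set q := (sN x y ^ 2 + dN x y ^ 2) / 4 with hqdef
  have hs := sN_nonneg x y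
  have hd := dN_nonneg x y
  have hpq : |(sN x y ^ 2 - dN x y ^ 2) / 4| ≤ q := by
    rw [abs_le]; constructor <;> nlinarith [sq_nonneg (sN x y), sq_nonneg (dN x y)]
  rcases le_total 1 q with h2 | h2
  · have h3 : q ^ α ≤ q ^ β := Real.rpow_le_rpow_of_exponent_le h2 h
    have h4 := abs_nonneg ((sN x y ^ 2 - dN x y ^ 2) / 4)
    nlinarith
  · have h3 : q ^ α ≤ 1 := Real.rpow_le_one hq.le h2 hα
    have h4 : 0 ≤ q ^ α := (Real.rpow_pos_of_pos hq α).le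
    have h5 := abs_nonneg ((sN x y ^ 2 - dN x y ^ 2) / 4)
    nlinarith

lemma hasAngle_mono_neg {γ δ : ℝ} (hγ : 0 ≤ γ) (h : γ ≤ δ) (hX : HasAngle X (-δ)) :
    HasAngle X (-γ) := by
  intro x y hx hy
  have h1 := hX x y hx hy
  rw [abs_ip_le_iff hx hy] at h1 ⊢
  have hq := q_pos (y := y) hx
  set q := (sN x y ^ 2 + dN x y ^ 2) / 4 with hqdef
  have hs := sN_nonneg x y
  have hd := dN_nonneg x y
  have hs' := sN_le hx hy
  have hd' := dN_le hx hy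
  have hp1 : |(sN x y ^ 2 - dN x y ^ 2) / 4| ≤ 1 := by
    rw [abs_le]; constructor <;> nlinarith [sq_nonneg (sN x y), sq_nonneg (dN x y)]
  rcases le_total q 1 with h2 | h2
  · have h3 : q ^ (-γ) ≤ q ^ (-δ) := Real.rpow_le_rpow_of_exponent_ge hq h2 (by linarith)
    have h4 := abs_nonneg ((sN x y ^ 2 - dN x y ^ 2) / 4)
    nlinarith
  · have h3 : q ^ (-γ) ≤ 1 := Real.rpow_le_one_of_one_le_of_nonpos h2 (by linarith)
    have h4 : 0 ≤ q ^ (-γ) := (Real.rpow_pos_of_pos hq _).le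
    have h5 := abs_nonneg ((sN x y ^ 2 - dN x y ^ 2) / 4)
    nlinarith

/-- 2-uniform convexity with constant `(α-1)/(α+1)` gives the angle `∠_α` -/
lemma hasAngle_of_convex {α a : ℝ} (hα : 1 < α) (ha : a * (α + 1) = α - 1)
    (h : ∀ x y : X, ‖x + y‖ ^ 2 + a * ‖x - y‖ ^ 2 ≤ 2 * (‖x‖ ^ 2 + ‖y‖ ^ 2)) :
    HasAngle X α := by
  intro x y hx hy
  rw [abs_ip_le_iff hx hy]
  have hq := q_pos (y := y) hx
  set q := (sN x y ^ 2 + dN x y ^ 2) / 4 with hqdef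
  have h1 := h (‖x‖⁻¹ • x) (‖y‖⁻¹ • y)
  have h2 := h (‖x‖⁻¹ • x) (-(‖y‖⁻¹ • y))
  rw [norm_neg, ← sub_eq_add_neg, sub_neg_eq_add] at h2
  rw [unit_norm hx, unit_norm hy] at h1 h2
  change sN x y ^ 2 + a * dN x y ^ 2 ≤ _ at h1
  change dN x y ^ 2 + a * sN x y ^ 2 ≤ _ at h2
  have h3 : |(sN x y ^ 2 - dN x y ^ 2) / 4| ≤ 1 - α * (q - 1) := by
    rw [abs_le]
    have h4 : (α + 1) * (sN x y ^ 2 + a * dN x y ^ 2) ≤ (α + 1) * 4 := by
      apply mul_le_mul_of_nonneg_left _ (by linarith); linarith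
    have h5 : (α + 1) * (dN x y ^ 2 + a * sN x y ^ 2) ≤ (α + 1) * 4 := by
      apply mul_le_mul_of_nonneg_left _ (by linarith); linarith
    have h6 : (α + 1) * (sN x y ^ 2 + a * dN x y ^ 2)
        = (α + 1) * sN x y ^ 2 + (α - 1) * dN x y ^ 2 := by rw [← ha]; ring
    have h7 : (α + 1) * (dN x y ^ 2 + a * sN x y ^ 2)
        = (α + 1) * dN x y ^ 2 + (α - 1) * sN x y ^ 2 := by rw [← ha]; ring
    constructor <;> rw [hqdef] <;> linarith
  have h4 : q ^ α ≤ Real.exp (α * (q - 1)) := by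
    rw [Real.rpow_def_of_pos hq, Real.exp_le_exp]
    have := Real.log_le_sub_one_of_pos hq
    nlinarith
  have h5 : 1 - α * (q - 1) ≤ Real.exp (-(α * (q - 1))) := by
    have := Real.add_one_le_exp (-(α * (q - 1)))
    linarith
  calc |(sN x y ^ 2 - dN x y ^ 2) / 4| * q ^ α
      ≤ Real.exp (-(α * (q - 1))) * Real.exp (α * (q - 1)) :=
        mul_le_mul (h3.trans h5) h4 (Real.rpow_pos_of_pos hq α).le (Real.exp_pos _).le
    _ = 1 := by rw [← Real.exp_add]; simp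

/-- 2-uniform smoothness with constant `(γ+1)/(γ-1)` gives the angle `∠_{-γ}` -/
lemma hasAngle_of_smooth {γ a : ℝ} (hγ : 1 < γ) (ha : a * (γ + 1) = γ - 1)
    (h : ∀ x y : X, 2 * (‖x‖ ^ 2 + ‖y‖ ^ 2) ≤ ‖x + y‖ ^ 2 + ‖x - y‖ ^ 2 / a) :
    HasAngle X (-γ) := by
  intro x y hx hy
  rw [abs_ip_le_iff hx hy]
  have ha0 : 0 < a := by
    by_contra hc
    push Not at hc
    nlinarith
  have hq := q_pos (y := y) hx
  set q := (sN x y ^ 2 + dN x y ^ 2) / 4 with hqdef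
  have h1 := h (‖x‖⁻¹ • x) (‖y‖⁻¹ • y)
  have h2 := h (‖x‖⁻¹ • x) (-(‖y‖⁻¹ • y))
  rw [norm_neg, ← sub_eq_add_neg, sub_neg_eq_add] at h2
  rw [unit_norm hx, unit_norm hy] at h1 h2
  change _ ≤ sN x y ^ 2 + dN x y ^ 2 / a at h1
  change _ ≤ dN x y ^ 2 + sN x y ^ 2 / a at h2
  have hinv : (γ - 1) / a = γ + 1 := by rw [div_eq_iff ha0.ne']; linarith
  have h3 : |(sN x y ^ 2 - dN x y ^ 2) / 4| ≤ 1 + γ * (q - 1) := by
    rw [abs_le]
    have h4 : (γ - 1) * 4 ≤ (γ - 1) * (sN x y ^ 2 + dN x y ^ 2 / a) := by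
      apply mul_le_mul_of_nonneg_left _ (by linarith); linarith
    have h5 : (γ - 1) * 4 ≤ (γ - 1) * (dN x y ^ 2 + sN x y ^ 2 / a) := by
      apply mul_le_mul_of_nonneg_left _ (by linarith); linarith
    have h6 : (γ - 1) * (sN x y ^ 2 + dN x y ^ 2 / a)
        = (γ - 1) * sN x y ^ 2 + (γ + 1) * dN x y ^ 2 := by rw [← hinv]; ring
    have h7 : (γ - 1) * (dN x y ^ 2 + sN x y ^ 2 / a)
        = (γ - 1) * dN x y ^ 2 + (γ + 1) * sN x y ^ 2 := by rw [← hinv]; ring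
    constructor <;> rw [hqdef] <;> linarith
  have h4 : 1 + γ * (q - 1) ≤ q ^ γ := by
    have := one_add_mul_self_le_rpow_one_add (s := q - 1) (by linarith) hγ.le
    simpa using this
  rw [Real.rpow_neg hq.le, ← div_eq_mul_inv, div_le_one (Real.rpow_pos_of_pos hq γ)]
  exact h3.trans h4

/-- duality between the two conditions -/
lemma dual_smooth {a : ℝ} (ha : 0 < a)
    (h : ∀ x y : X, ‖x + y‖ ^ 2 + a * ‖x - y‖ ^ 2 ≤ 2 * (‖x‖ ^ 2 + ‖y‖ ^ 2))
    (f g : StrongDual ℝ X) :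
    2 * (‖f‖ ^ 2 + ‖g‖ ^ 2) ≤ ‖f + g‖ ^ 2 + ‖f - g‖ ^ 2 / a := by
  -- almost norming vectors
  have hnm : ∀ (f : StrongDual ℝ X) (θ : ℝ), 0 < θ → θ < 1 →
      ∃ x : X, ‖x‖ ≤ ‖f‖ ∧ θ * ‖f‖ ^ 2 ≤ f x := by
    intro f θ h0 h1
    rcases eq_or_ne f 0 with hf | hf
    · exact ⟨0, by simp, by simp [hf]⟩
    · have hf0 : 0 < ‖f‖ := norm_pos_iff.mpr hf
      obtain ⟨x, hx1, hx2⟩ := f.exists_lt_apply_of_lt_opNorm (r := θ * ‖f‖) (by nlinarith)
      rcases le_total 0 (f x) with h2 | h2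
      · refine ⟨‖f‖ • x, ?_, ?_⟩
        · rw [norm_smul, norm_norm]; nlinarith
        · rw [map_smul, smul_eq_mul]
          rw [Real.norm_eq_abs, abs_of_nonneg h2] at hx2
          nlinarith
      · refine ⟨-(‖f‖ • x), ?_, ?_⟩
        · rw [norm_neg, norm_smul, norm_norm]; nlinarith
        · rw [map_neg, map_smul, smul_eq_mul]
          rw [Real.norm_eq_abs, abs_of_nonpos h2] at hx2
          nlinarith
  set P := ‖f‖ ^ 2 + ‖g‖ ^ 2 with hP
  set R := ‖f + g‖ ^ 2 + ‖f - g‖ ^ 2 / a with hR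
  have hP0 : 0 ≤ P := by positivity
  have hR0 : 0 ≤ R := by positivity
  rcases hP0.eq_or_lt with h0 | hP1
  · rw [← h0]; simpa using hR0
  have key : ∀ θ : ℝ, 0 < θ → θ < 1 → θ ^ 2 * (2 * P) ≤ R := by
    intro θ h1 h2
    obtain ⟨x, hx1, hx2⟩ := hnm f θ h1 h2
    obtain ⟨y, hy1, hy2⟩ := hnm g θ h1 h2
    have e1 : f x + g y = ((f + g) (x + y) + (f - g) (x - y)) / 2 := by
      simp only [add_apply, sub_apply, map_add, map_sub]
      ring
    have e2 : (f + g) (x + y) ≤ ‖f + g‖ * ‖x + y‖ :=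
      (le_abs_self _).trans ((f + g).le_opNorm _)
    have e3 : (f - g) (x - y) ≤ ‖f - g‖ * ‖x - y‖ :=
      (le_abs_self _).trans ((f - g).le_opNorm _)
    have e4 := h x y
    have e5 : ‖x + y‖ ^ 2 + a * ‖x - y‖ ^ 2 ≤ 2 * P := by
      have : ‖x‖ ^ 2 ≤ ‖f‖ ^ 2 := by gcongr
      have : ‖y‖ ^ 2 ≤ ‖g‖ ^ 2 := by gcongr
      linarith
    have e6 : θ * P ≤ (‖f + g‖ * ‖x + y‖ + ‖f - g‖ * ‖x - y‖) / 2 := by
      have : θ * P = θ * ‖f‖ ^ 2 + θ * ‖g‖ ^ 2 := by rw [hP]; ring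
      linarith
    have e7 : (‖f + g‖ * ‖x + y‖ + ‖f - g‖ * ‖x - y‖) ^ 2
        ≤ R * (‖x + y‖ ^ 2 + a * ‖x - y‖ ^ 2) := by
      have : R * (‖x + y‖ ^ 2 + a * ‖x - y‖ ^ 2)
          - (‖f + g‖ * ‖x + y‖ + ‖f - g‖ * ‖x - y‖) ^ 2
          = (a * ‖f + g‖ * ‖x - y‖ - ‖f - g‖ * ‖x + y‖) ^ 2 / a := by
        rw [hR]; field_simp; ring
      have h8 : 0 ≤ (a * ‖f + g‖ * ‖x - y‖ - ‖f - g‖ * ‖x + y‖) ^ 2 / a := by positivity
      linarith
    have e8 : (θ * P) ^ 2 ≤ ((‖f + g‖ * ‖x + y‖ + ‖f - g‖ * ‖x - y‖) / 2) ^ 2 := by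
      have : 0 ≤ θ * P := by positivity
      gcongr
    have e9 : R * (‖x + y‖ ^ 2 + a * ‖x - y‖ ^ 2) ≤ R * (2 * P) := by gcongr
    have e10 : P * (θ ^ 2 * (2 * P)) ≤ P * R := by nlinarith
    exact le_of_mul_le_mul_left e10 hP1
  have hlim : Tendsto (fun θ : ℝ => θ ^ 2 * (2 * P)) (𝓝[<] 1) (𝓝 (1 ^ 2 * (2 * P))) :=
    ((continuous_id.pow 2).mul continuous_const).tendsto 1 |>.mono_left nhdsWithin_le_nhds
  rw [one_pow, one_mul] at hlim
  refine le_of_tendsto hlim ?_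
  have h1 : ∀ᶠ θ : ℝ in 𝓝[<] 1, 0 < θ :=
    nhdsWithin_le_nhds (lt_mem_nhds (by norm_num))
  filter_upwards [h1, self_mem_nhdsWithin] with θ h2 h3
  exact key θ h2 h3

lemma exists_pos_of_deriv {φ : ℝ → ℝ} {m ε : ℝ} (h : HasDerivAt φ m 0) (h0 : φ 0 = 0)
    (hm : 0 < m) (hε : 0 < ε) : ∃ z, 0 < z ∧ z < ε ∧ 0 < φ z := by
  have h1 := h.tendsto_slope_zero_right
  have h2 : ∀ᶠ t in 𝓝[>] (0 : ℝ), 0 < t⁻¹ • (φ (0 + t) - φ 0) := h1.eventually_const_lt hm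
  have h3 : ∀ᶠ t in 𝓝[>] (0 : ℝ), t < ε := nhdsWithin_le_nhds (gt_mem_nhds hε)
  obtain ⟨t, ht1, ht2, ht3⟩ := (h2.and (h3.and self_mem_nhdsWithin)).exists
  rw [zero_add, h0, sub_zero, smul_eq_mul] at ht1
  have ht3' : 0 < t := ht3
  refine ⟨t, ht3', ht2, ?_⟩
  by_contra hc
  push Not at hc
  have : 0 < t⁻¹ := by positivity
  nlinarith

end General

section Example

/-- the Euclidean plane -/
abbrev Euc := EuclideanSpace ℝ (Fin 2)

/-- the embedding of the plane into a sup-product of two Euclidean planes -/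
noncomputable def J (a : ℝ) : (Fin 2 → ℝ) →ₗ[ℝ] Euc × Euc where
  toFun v := (!₂[v 0, √a * v 1], !₂[√a * v 0, v 1])
  map_add' v w := by
    ext i <;> fin_cases i <;> simp [mul_add]
  map_smul' c v := by
    ext i <;> fin_cases i <;> simp [mul_left_comm]

/-- the plane with the norm `N(v)² = max (v₁² + a v₂²) (a v₁² + v₂²)` -/
noncomputable abbrev Sp (a : ℝ) : Submodule ℝ (Euc × Euc) := LinearMap.range (J a)

/-- the vector `(p, q)` of the plane -/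
noncomputable def el (a p q : ℝ) : Sp a := ⟨J a ![p, q], LinearMap.mem_range_self _ _⟩

lemma el_surj {a : ℝ} (x : Sp a) : ∃ p q, x = el a p q := by
  obtain ⟨x, v, rfl⟩ := x
  refine ⟨v 0, v 1, ?_⟩
  unfold el
  congr 2
  ext i; fin_cases i <;> rfl

lemma el_add (a p q p' q' : ℝ) : el a p q + el a p' q' = el a (p + p') (q + q') := by
  unfold el
  ext1
  simp only [Submodule.coe_add]
  rw [← map_add]
  congr 1
  ext i; fin_cases i <;> rfl

lemma el_smul (a c p q : ℝ) : c • el a p q = el a (c * p) (c * q) := by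
  unfold el
  ext1
  simp only [Submodule.coe_smul]
  rw [← map_smul]
  congr 1
  ext i; fin_cases i <;> rfl

lemma el_sub (a p q p' q' : ℝ) : el a p q - el a p' q' = el a (p - p') (q - q') := by
  have h : -el a p' q' = el a (-p') (-q') := by
    rw [← neg_one_smul ℝ, el_smul]; simp
  rw [sub_eq_add_neg, h, el_add]; simp [sub_eq_add_neg]

lemma norm_el_sq {a : ℝ} (ha : 0 ≤ a) (p q : ℝ) :
    ‖el a p q‖ ^ 2 = max (p ^ 2 + a * q ^ 2) (a * p ^ 2 + q ^ 2) := by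
  have h1 : ‖el a p q‖ = max ‖(!₂[p, √a * q] : Euc)‖ ‖(!₂[√a * p, q] : Euc)‖ := rfl
  have h2 : ‖(!₂[p, √a * q] : Euc)‖ ^ 2 = p ^ 2 + a * q ^ 2 := by
    rw [EuclideanSpace.norm_sq_eq]
    simp [Fin.sum_univ_two, mul_pow, Real.sq_sqrt ha]
  have h3 : ‖(!₂[√a * p, q] : Euc)‖ ^ 2 = a * p ^ 2 + q ^ 2 := by
    rw [EuclideanSpace.norm_sq_eq]
    simp [Fin.sum_univ_two, mul_pow, Real.sq_sqrt ha]
  rw [h1, ← h2, ← h3]
  rcases le_total ‖(!₂[p, √a * q] : Euc)‖ ‖(!₂[√a * p, q] : Euc)‖ with h | h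
  · rw [max_eq_right h, max_eq_right]; gcongr
  · rw [max_eq_left h, max_eq_left]; gcongr

lemma Sp_convex {a : ℝ} (ha : 0 < a) (ha1 : a < 1) (x y : Sp a) :
    ‖x + y‖ ^ 2 + a * ‖x - y‖ ^ 2 ≤ 2 * (‖x‖ ^ 2 + ‖y‖ ^ 2) := by
  obtain ⟨p, q, rfl⟩ := el_surj x
  obtain ⟨p', q', rfl⟩ := el_surj y
  rw [el_add, el_sub]
  simp only [norm_el_sq ha.le]
  have h1 := le_max_left (p ^ 2 + a * q ^ 2) (a * p ^ 2 + q ^ 2)
  have h2 := le_max_right (p ^ 2 + a * q ^ 2) (a * p ^ 2 + q ^ 2)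
  have h3 := le_max_left (p' ^ 2 + a * q' ^ 2) (a * p' ^ 2 + q' ^ 2)
  have h4 := le_max_right (p' ^ 2 + a * q' ^ 2) (a * p' ^ 2 + q' ^ 2)
  set M := max (p ^ 2 + a * q ^ 2) (a * p ^ 2 + q ^ 2)
  set M' := max (p' ^ 2 + a * q' ^ 2) (a * p' ^ 2 + q' ^ 2)
  have ha2 : a ^ 2 ≤ 1 := by nlinarith
  rcases max_choice ((p + p') ^ 2 + a * (q + q') ^ 2) (a * (p + p') ^ 2 + (q + q') ^ 2)
    with e1 | e1 <;>
  rcases max_choice ((p - p') ^ 2 + a * (q - q') ^ 2) (a * (p - p') ^ 2 + (q - q') ^ 2)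
    with e2 | e2 <;> rw [e1, e2] <;>
  nlinarith [mul_nonneg (sub_nonneg.mpr ha1.le) (sq_nonneg (p - p')),
    mul_nonneg (sub_nonneg.mpr ha1.le) (sq_nonneg (q - q')),
    mul_nonneg ha.le (mul_nonneg (sub_nonneg.mpr ha1.le) (sq_nonneg (p - p'))),
    mul_nonneg ha.le (mul_nonneg (sub_nonneg.mpr ha1.le) (sq_nonneg (q - q'))),
    mul_nonneg (sub_nonneg.mpr ha2) (sq_nonneg (p - p')),
    mul_nonneg (sub_nonneg.mpr ha2) (sq_nonneg (q - q'))]

/-- the functional `v ↦ p v₁ + q v₂` -/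
noncomputable def lin (a p q : ℝ) : StrongDual ℝ (Sp a) :=
  p • ((EuclideanSpace.proj (0 : Fin 2) : Euc →L[ℝ] ℝ) ∘L
      ((ContinuousLinearMap.fst ℝ Euc Euc) ∘L (Sp a).subtypeL)) +
  q • ((EuclideanSpace.proj (1 : Fin 2) : Euc →L[ℝ] ℝ) ∘L
      ((ContinuousLinearMap.snd ℝ Euc Euc) ∘L (Sp a).subtypeL))

lemma lin_el (a p q u v : ℝ) : lin a p q (el a u v) = p * u + q * v := by
  simp [lin, el, J]

lemma lin_add (a p q p' q' : ℝ) : lin a p q + lin a p' q' = lin a (p + p') (q + q') := by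
  ext x
  obtain ⟨u, v, rfl⟩ := el_surj x
  rw [add_apply, lin_el, lin_el, lin_el]; ring

lemma lin_sub (a p q p' q' : ℝ) : lin a p q - lin a p' q' = lin a (p - p') (q - q') := by
  ext x
  obtain ⟨u, v, rfl⟩ := el_surj x
  rw [sub_apply, lin_el, lin_el, lin_el]; ring

lemma lin_smul (a c p q : ℝ) : c • lin a p q = lin a (c * p) (c * q) := by
  ext x
  obtain ⟨u, v, rfl⟩ := el_surj x
  rw [smul_apply, lin_el, lin_el, smul_eq_mul]; ring

lemma norm_lin_sq {a p q : ℝ} (ha : 0 < a) (ha1 : a < 1) (h : |q| ≤ a * |p|) :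
    ‖lin a p q‖ ^ 2 = p ^ 2 + q ^ 2 / a := by
  have hR : 0 ≤ p ^ 2 + q ^ 2 / a := by positivity
  have hq : q ^ 2 ≤ a ^ 2 * p ^ 2 := by
    rw [← sq_abs q, ← sq_abs p, ← mul_pow]; gcongr
  have hupper : ‖lin a p q‖ ≤ √(p ^ 2 + q ^ 2 / a) := by
    apply ContinuousLinearMap.opNorm_le_bound _ (Real.sqrt_nonneg _)
    intro x
    obtain ⟨u, v, rfl⟩ := el_surj x
    rw [lin_el, Real.norm_eq_abs]
    apply abs_le_of_sq_le_sq _ (by positivity)
    rw [mul_pow, Real.sq_sqrt hR, norm_el_sq ha.le]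
    calc (p * u + q * v) ^ 2 ≤ (p ^ 2 + q ^ 2 / a) * (u ^ 2 + a * v ^ 2) := by
          have : (p ^ 2 + q ^ 2 / a) * (u ^ 2 + a * v ^ 2) - (p * u + q * v) ^ 2
              = (a * p * v - q * u) ^ 2 / a := by field_simp; ring
          have h8 : 0 ≤ (a * p * v - q * u) ^ 2 / a := by positivity
          linarith
      _ ≤ _ := by gcongr; exact le_max_left _ _
  have hlower : (p ^ 2 + q ^ 2 / a) ^ 2 ≤ ‖lin a p q‖ ^ 2 * (p ^ 2 + q ^ 2 / a) := by
    have h1 := (lin a p q).le_opNorm (el a p (q / a))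
    rw [lin_el, Real.norm_eq_abs] at h1
    have h2 : ‖el a p (q / a)‖ ^ 2 = p ^ 2 + q ^ 2 / a := by
      rw [norm_el_sq ha.le, max_eq_left]
      · field_simp
      · have e1 : p ^ 2 + a * (q / a) ^ 2 - (a * p ^ 2 + (q / a) ^ 2)
            = (1 - a) * (a ^ 2 * p ^ 2 - q ^ 2) / a ^ 2 := by field_simp; ring
        have e2 : 0 ≤ (1 - a) * (a ^ 2 * p ^ 2 - q ^ 2) / a ^ 2 :=
          div_nonneg (mul_nonneg (by linarith) (by linarith)) (by positivity)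
        linarith
    have h3 : p * p + q * (q / a) = p ^ 2 + q ^ 2 / a := by ring
    rw [h3, abs_of_nonneg hR] at h1
    calc (p ^ 2 + q ^ 2 / a) ^ 2 ≤ (‖lin a p q‖ * ‖el a p (q / a)‖) ^ 2 := by gcongr
      _ = _ := by rw [mul_pow, h2]
  apply le_antisymm
  · calc ‖lin a p q‖ ^ 2 ≤ (√(p ^ 2 + q ^ 2 / a)) ^ 2 := by gcongr
      _ = _ := Real.sq_sqrt hR
  · rcases hR.eq_or_lt with h0 | h0
    · rw [← h0]; positivity
    · rw [sq (p ^ 2 + q ^ 2 / a)] at hlower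
      exact le_of_mul_le_mul_right hlower h0

lemma norm_lin_zero_sq {a q : ℝ} (ha : 0 < a) (ha1 : a < 1) : ‖lin a 0 q‖ ^ 2 = q ^ 2 := by
  have hupper : ‖lin a 0 q‖ ≤ |q| := by
    apply ContinuousLinearMap.opNorm_le_bound _ (abs_nonneg _)
    intro x
    obtain ⟨u, v, rfl⟩ := el_surj x
    rw [lin_el, Real.norm_eq_abs]
    apply abs_le_of_sq_le_sq _ (by positivity)
    rw [mul_pow, norm_el_sq ha.le, sq_abs]
    calc (0 * u + q * v) ^ 2 = q ^ 2 * v ^ 2 := by ring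
      _ ≤ q ^ 2 * (a * u ^ 2 + v ^ 2) := by
          gcongr
          nlinarith [mul_nonneg ha.le (sq_nonneg u)]
      _ ≤ _ := by gcongr; exact le_max_right _ _
  have hlower : |q| ≤ ‖lin a 0 q‖ := by
    have h1 := (lin a 0 q).le_opNorm (el a 0 1)
    rw [lin_el, Real.norm_eq_abs] at h1
    have h2 : ‖el a 0 1‖ ^ 2 = 1 ^ 2 := by
      rw [norm_el_sq ha.le]; simp [ha1.le]
    have h3 : ‖el a 0 1‖ = 1 := by
      rwa [sq_eq_sq₀ (norm_nonneg _) (by norm_num)] at h2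
    rw [h3] at h1
    simpa using h1
  rw [le_antisymm hupper hlower, sq_abs]

end Example

section Fail

lemma not_hasAngle {X : Type*} [NormedAddCommGroup X] [NormedSpace ℝ X] {ρ C S D : ℝ} {x y : X}
    (hC : 0 < C) (hx : ‖x‖ ^ 2 = C) (hy : ‖y‖ ^ 2 = C) (hS : ‖x + y‖ ^ 2 = S)
    (hD : ‖x - y‖ ^ 2 = D) (h : 1 < (S - D) / (4 * C) * ((S + D) / (4 * C)) ^ ρ) :
    ¬ HasAngle X ρ := by
  intro hX
  have hx0 : x ≠ 0 := by
    rintro rfl
    rw [norm_zero] at hx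
    norm_num at hx
    linarith
  have hy0 : y ≠ 0 := by
    rintro rfl
    rw [norm_zero] at hy
    norm_num at hy
    linarith
  have hxy : ‖x‖ = ‖y‖ := by
    have : ‖x‖ ^ 2 = ‖y‖ ^ 2 := by rw [hx, hy]
    rwa [sq_eq_sq₀ (norm_nonneg _) (norm_nonneg _)] at this
  have h1 := (abs_ip_le_iff hx0 hy0).mp (hX x y hx0 hy0)
  have hs : sN x y ^ 2 = S / C := by
    unfold sN
    rw [← hxy, ← smul_add, norm_smul, mul_pow, hS, norm_inv, norm_norm, inv_pow, hx]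
    field_simp
  have hd : dN x y ^ 2 = D / C := by
    unfold dN
    rw [← hxy, ← smul_sub, norm_smul, mul_pow, hD, norm_inv, norm_norm, inv_pow, hx]
    field_simp
  rw [hs, hd] at h1
  have e1 : (S / C - D / C) / 4 = (S - D) / (4 * C) := by field_simp
  have e2 : (S / C + D / C) / 4 = (S + D) / (4 * C) := by field_simp
  rw [e1, e2] at h1
  have h2 : 0 ≤ ((S + D) / (4 * C)) ^ ρ := by
    apply Real.rpow_nonneg
    rw [← hS, ← hD]; positivity
  have h3 := le_abs_self ((S - D) / (4 * C))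
  nlinarith

lemma ex_z {b ρ ε : ℝ} (hb : 0 < b) (h : 0 < -1 - b + ρ * (1 - b)) (hε : 0 < ε) (hε1 : ε ≤ 1) :
    ∃ z, 0 < z ∧ z < ε ∧ 1 < (1 - z) / (1 + b * z) * ((1 + z) / (1 + b * z)) ^ ρ := by
  have hd : HasDerivAt (fun z : ℝ => Real.log (1 - z) - Real.log (1 + b * z)
      + ρ * (Real.log (1 + z) - Real.log (1 + b * z))) (-1 - b + ρ * (1 - b)) 0 := by
    have h1 : HasDerivAt (fun z : ℝ => Real.log (1 - z)) (-1) 0 := by
      have := ((hasDerivAt_id (0 : ℝ)).const_sub 1).log (by simp)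
      simpa using this
    have h2 : HasDerivAt (fun z : ℝ => Real.log (1 + b * z)) b 0 := by
      have := (((hasDerivAt_id (0 : ℝ)).const_mul b).const_add 1).log (by simp)
      simpa using this
    have h3 : HasDerivAt (fun z : ℝ => Real.log (1 + z)) 1 0 := by
      have := ((hasDerivAt_id (0 : ℝ)).const_add 1).log (by simp)
      simpa using this
    exact (h1.fun_sub h2).fun_add ((h3.fun_sub h2).const_mul ρ)
  obtain ⟨z, hz0, hz1, hz2⟩ := exists_pos_of_deriv hd (by simp) h hε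
  refine ⟨z, hz0, hz1, ?_⟩
  have e1 : 0 < 1 - z := by linarith
  have e2 : 0 < 1 + b * z := by positivity
  have e3 : 0 < 1 + z := by linarith
  have e4 : 0 < (1 - z) / (1 + b * z) * ((1 + z) / (1 + b * z)) ^ ρ := by positivity
  rw [← Real.log_pos_iff e4.le, Real.log_mul (by positivity) (by positivity),
    Real.log_rpow (by positivity), Real.log_div e1.ne' e2.ne', Real.log_div e3.ne' e2.ne']
  exact hz2

lemma Sp_not_pos {a β : ℝ} (ha : 0 < a) (ha1 : a < 1) (h : a * (β + 1) < β - 1) :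
    ¬ HasAngle (Sp a) β := by
  obtain ⟨z, hz0, hz1, hz2⟩ := ex_z (b := a) (ρ := β) (ε := 1) ha (by linarith) one_pos le_rfl
  have hsq : √z ^ 2 = z := Real.sq_sqrt hz0.le
  refine not_hasAngle (x := el a 1 (√z)) (y := el a 1 (-√z)) (C := 1 + a * z) (S := 4)
    (D := 4 * z) (by positivity) ?_ ?_ ?_ ?_ ?_
  · rw [norm_el_sq ha.le, hsq, max_eq_left]
    · ring
    · nlinarith
  · rw [norm_el_sq ha.le, neg_sq, hsq, max_eq_left]
    · ring
    · nlinarith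
  · rw [el_add, norm_el_sq ha.le, max_eq_left]
    · norm_num
    · norm_num; linarith
  · rw [el_sub, norm_el_sq ha.le]
    have : (√z - -√z) ^ 2 = 4 * z := by rw [sub_neg_eq_add, ← two_mul, mul_pow, hsq]; norm_num
    rw [this, max_eq_right]
    · norm_num
    · norm_num; nlinarith
  · have e1 : (4 - 4 * z) / (4 * (1 + a * z)) = (1 - z) / (1 + a * z) := by
      rw [show 4 - 4 * z = 4 * (1 - z) by ring, mul_div_mul_left _ _ (by norm_num)]
    have e2 : (4 + 4 * z) / (4 * (1 + a * z)) = (1 + z) / (1 + a * z) := by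
      rw [show 4 + 4 * z = 4 * (1 + z) by ring, mul_div_mul_left _ _ (by norm_num)]
    rw [e1, e2]
    exact hz2

lemma Dual_not_neg {a δ : ℝ} (ha : 0 < a) (ha1 : a < 1) (h : a * (δ + 1) < δ - 1) :
    ¬ HasAngle (StrongDual ℝ (Sp a)) (-δ) := by
  have hcond : 0 < -1 - 1 / a + (-δ) * (1 - 1 / a) := by
    have : -1 - 1 / a + (-δ) * (1 - 1 / a) = (δ - 1 - a * (δ + 1)) / a := by
      field_simp; ring
    rw [this]
    exact div_pos (by linarith) ha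
  obtain ⟨z, hz0, hz1, hz2⟩ := ex_z (b := 1 / a) (ρ := -δ) (ε := a ^ 2) (by positivity) hcond
    (by positivity) (by nlinarith)
  have hsq : √z ^ 2 = z := Real.sq_sqrt hz0.le
  have hs : √z ≤ a := by
    rw [Real.sqrt_le_iff]; exact ⟨ha.le, hz1.le⟩
  have hs0 : 0 ≤ √z := Real.sqrt_nonneg z
  refine not_hasAngle (x := lin a 1 (√z)) (y := lin a 1 (-√z)) (C := 1 + 1 / a * z) (S := 4)
    (D := 4 * z) (by positivity) ?_ ?_ ?_ ?_ ?_
  · rw [norm_lin_sq ha ha1, hsq]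
    · ring
    · rw [abs_of_nonneg hs0]; simpa using hs
  · rw [norm_lin_sq ha ha1, neg_sq, hsq]
    · ring
    · rw [abs_neg, abs_of_nonneg hs0]; simpa using hs
  · rw [lin_add, norm_lin_sq ha ha1]
    · norm_num
    · norm_num; exact ha.le
  · rw [lin_sub, sub_self, norm_lin_zero_sq ha ha1]
    rw [sub_neg_eq_add, ← two_mul, mul_pow, hsq]; norm_num
  · have e1 : (4 - 4 * z) / (4 * (1 + 1 / a * z)) = (1 - z) / (1 + 1 / a * z) := by
      rw [show 4 - 4 * z = 4 * (1 - z) by ring, mul_div_mul_left _ _ (by norm_num)]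
    have e2 : (4 + 4 * z) / (4 * (1 + 1 / a * z)) = (1 + z) / (1 + 1 / a * z) := by
      rw [show 4 + 4 * z = 4 * (1 + z) by ring, mul_div_mul_left _ _ (by norm_num)]
    rw [e1, e2]
    exact hz2

lemma Sp_not_neg {a γ : ℝ} (ha : 0 < a) (ha1 : a < 1) (hγ : 1 < γ) :
    ¬ HasAngle (Sp a) (-γ) := by
  set φ : ℝ → ℝ := fun u => Real.log (1 + a) + Real.log (1 - u ^ 2)
      - Real.log ((1 + u) ^ 2 + a * (1 - u) ^ 2)
      + (-γ) * (Real.log (1 + a) + Real.log (1 + u ^ 2)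
        - Real.log ((1 + u) ^ 2 + a * (1 - u) ^ 2)) with hφ
  have hd : HasDerivAt φ ((γ - 1) * ((2 - 2 * a) / (1 + a))) 0 := by
    have h1 : HasDerivAt (fun u : ℝ => Real.log (1 - u ^ 2)) 0 0 := by
      have := (((hasDerivAt_id (0 : ℝ)).fun_pow 2).const_sub 1).log (by simp)
      simpa using this
    have h2 : HasDerivAt (fun u : ℝ => Real.log (1 + u ^ 2)) 0 0 := by
      have := (((hasDerivAt_id (0 : ℝ)).fun_pow 2).const_add 1).log (by simp)
      simpa using this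
    have h3 : HasDerivAt (fun u : ℝ => Real.log ((1 + u) ^ 2 + a * (1 - u) ^ 2))
        ((2 - 2 * a) / (1 + a)) 0 := by
      have := ((((hasDerivAt_id (0 : ℝ)).const_add 1).fun_pow 2).fun_add
        ((((hasDerivAt_id (0 : ℝ)).const_sub 1).fun_pow 2).const_mul a)).log
        (by simp; positivity)
      refine this.congr_deriv ?_
      simp
      ring
    refine (((h1.const_add (Real.log (1 + a))).fun_sub h3).fun_add
      (((h2.const_add (Real.log (1 + a))).fun_sub h3).const_mul (-γ))).congr_deriv ?_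
    ring
  have hm : 0 < (γ - 1) * ((2 - 2 * a) / (1 + a)) := by
    apply mul_pos (by linarith)
    apply div_pos <;> linarith
  obtain ⟨u, hu0, hu1, hu2⟩ := exists_pos_of_deriv hd (by simp [hφ]) hm one_pos
  have hu3 : u ^ 2 < 1 := by nlinarith
  have hC : 0 < (1 + u) ^ 2 + a * (1 - u) ^ 2 := by positivity
  refine not_hasAngle (x := el a (1 + u) (1 - u)) (y := el a (1 - u) (1 + u))
    (C := (1 + u) ^ 2 + a * (1 - u) ^ 2) (S := 4 * (1 + a)) (D := 4 * (1 + a) * u ^ 2)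
    hC ?_ ?_ ?_ ?_ ?_
  · rw [norm_el_sq ha.le, max_eq_left]
    nlinarith
  · rw [norm_el_sq ha.le, max_eq_right]
    · ring
    · nlinarith
  · rw [el_add, norm_el_sq ha.le, max_eq_left]
    · ring
    · nlinarith
  · rw [el_sub, norm_el_sq ha.le, max_eq_left]
    · ring
    · nlinarith
  · set C := (1 + u) ^ 2 + a * (1 - u) ^ 2 with hCdef
    have e1 : (4 * (1 + a) - 4 * (1 + a) * u ^ 2) / (4 * C) = (1 + a) * (1 - u ^ 2) / C := by
      rw [show 4 * (1 + a) - 4 * (1 + a) * u ^ 2 = 4 * ((1 + a) * (1 - u ^ 2)) by ring,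
        mul_div_mul_left _ _ (by norm_num)]
    have e2 : (4 * (1 + a) + 4 * (1 + a) * u ^ 2) / (4 * C) = (1 + a) * (1 + u ^ 2) / C := by
      rw [show 4 * (1 + a) + 4 * (1 + a) * u ^ 2 = 4 * ((1 + a) * (1 + u ^ 2)) by ring,
        mul_div_mul_left _ _ (by norm_num)]
    rw [e1, e2]
    have e3 : 0 < 1 - u ^ 2 := by linarith
    have e4 : 0 < 1 + u ^ 2 := by positivity
    have e5 : 0 < 1 + a := by linarith
    have e6 : 0 < (1 + a) * (1 - u ^ 2) / C * ((1 + a) * (1 + u ^ 2) / C) ^ (-γ) := by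
      positivity
    rw [← Real.log_pos_iff e6.le, Real.log_mul (by positivity) (by positivity),
      Real.log_rpow (by positivity), Real.log_div (by positivity) hC.ne',
      Real.log_div (by positivity) hC.ne', Real.log_mul e5.ne' e3.ne',
      Real.log_mul e5.ne' e4.ne']
    exact hu2

end Fail

/-- the positive examples -/
noncomputable def ZX (a : ℝ) : NSpace := ⟨Sp a, inferInstance, inferInstance⟩

/-- the negative examples -/
noncomputable def ZY (a : ℝ) : NSpace := ⟨StrongDual ℝ (Sp a), inferInstance, inferInstance⟩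

/-- the parameter belonging to an exponent -/
noncomputable def par (α : ℝ) : ℝ := (α - 1) / (α + 1)

lemma par_pos {α : ℝ} (h : 1 < α) : 0 < par α := div_pos (by linarith) (by linarith)

lemma par_lt {α : ℝ} (h : 1 < α) : par α < 1 := by
  unfold par; rw [div_lt_one (by linarith)]; linarith

lemma par_mul {α : ℝ} (h : 1 < α) : par α * (α + 1) = α - 1 := by
  unfold par; rw [div_mul_cancel₀]; linarith

lemma par_mul_lt {α β : ℝ} (h : 1 < α) (h' : α < β) : par α * (β + 1) < β - 1 := by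
  unfold par
  rw [div_mul_eq_mul_div, div_lt_iff₀ (by linarith)]
  nlinarith

lemma ZX_mem {α : ℝ} (h : 1 < α) : ZX (par α) ∈ NORMr α :=
  hasAngle_of_convex (X := Sp (par α)) h (par_mul h) (Sp_convex (par_pos h) (par_lt h))

lemma ZX_not_mem {α β : ℝ} (h : 1 < α) (h' : α < β) : ZX (par α) ∉ NORMr β :=
  Sp_not_pos (par_pos h) (par_lt h) (par_mul_lt h h')

lemma ZX_not_mem_neg {α γ : ℝ} (h : 1 < α) (h' : 1 < γ) : ZX (par α) ∉ NORMr (-γ) :=
  Sp_not_neg (par_pos h) (par_lt h) h'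

lemma ZY_mem {γ : ℝ} (h : 1 < γ) : ZY (par γ) ∈ NORMr (-γ) :=
  hasAngle_of_smooth (X := StrongDual ℝ (Sp (par γ))) h (par_mul h)
    (dual_smooth (par_pos h) (Sp_convex (par_pos h) (par_lt h)))

lemma ZY_not_mem {γ δ : ℝ} (h : 1 < γ) (h' : γ < δ) : ZY (par γ) ∉ NORMr (-δ) :=
  Dual_not_neg (par_pos h) (par_lt h) (par_mul_lt h h')

/-- **Theorem.** For `1 < γ < δ` and `1 < α < β` the five classes `NORM_{-δ}`, `NORM_{-γ}`,
`NORM`, `NORM_α`, `NORM_β` are pairwise different; moreover `NORM_{-δ} ⊊ NORM_{-γ}` and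
`NORM_β ⊊ NORM_α`. -/
theorem result (α β γ δ : ℝ) (hγ : 1 < γ) (hγδ : γ < δ) (hα : 1 < α) (hαβ : α < β) :
    List.Pairwise (fun A B : Set NSpace => A ≠ B)
      [NORMr (-δ), NORMr (-γ), NORM, NORMr α, NORMr β] ∧
    NORMr (-δ) ⊂ NORMr (-γ) ∧ NORMr β ⊂ NORMr α := by
  have hδ : 1 < δ := hγ.trans hγδ
  have hβ : 1 < β := hα.trans hαβ
  have ne_of : ∀ {A B : Set NSpace} (Z : NSpace), Z ∈ A → Z ∉ B → B ≠ A := by
    rintro A B Z h1 h2 rfl; exact h2 h1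
  have d1 : NORMr (-δ) ≠ NORMr (-γ) := ne_of _ (ZY_mem hγ) (ZY_not_mem hγ hγδ)
  have d2 : NORMr α ≠ NORMr β := (ne_of _ (ZX_mem hα) (ZX_not_mem hα hαβ)).symm
  have n1 : ∀ γ : ℝ, 1 < γ → NORMr (-γ) ≠ NORM := fun γ h =>
    ne_of _ (Set.mem_univ _) (ZX_not_mem_neg hα h)
  have n2 : ∀ α : ℝ, 1 < α → NORM ≠ NORMr α := fun α h =>
    (ne_of (ZX (par ((1 + α) / 2))) (Set.mem_univ _)
      (ZX_not_mem (by linarith) (by linarith))).symm
  have n3 : ∀ γ α : ℝ, 1 < γ → 1 < α → NORMr (-γ) ≠ NORMr α := fun γ α h h' =>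
    ne_of _ (ZX_mem h') (ZX_not_mem_neg h' h)
  refine ⟨?_, ?_, ?_⟩
  · simp only [List.pairwise_cons, List.mem_cons, List.not_mem_nil, or_false, forall_eq_or_imp,
      forall_eq, IsEmpty.forall_iff, implies_true, List.Pairwise.nil, and_true]
    exact ⟨⟨d1, n1 δ hδ, n3 δ α hδ hα, n3 δ β hδ hβ⟩, ⟨n1 γ hγ, n3 γ α hγ hα, n3 γ β hγ hβ⟩,
      ⟨n2 α hα, n2 β hβ⟩, d2⟩
  · refine ssubset_of_subset_of_ne (fun Z hZ => ?_) d1
    let _ := Z.grp
    let _ := Z.spc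
    exact hasAngle_mono_neg (X := Z.carrier) (by linarith) hγδ.le hZ
  · refine ssubset_of_subset_of_ne (fun Z hZ => ?_) d2.symm
    let _ := Z.grp
    let _ := Z.spc
    exact hasAngle_mono_pos (X := Z.carrier) (by linarith) hαβ.le hZ

end Pool.Agent.Results.MP_843c3c_an.Distinct
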